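import Pool.Agent.MP_8067b8_lc.Mg.H6_Jump

/-! A topological Ramsey space whose spectrum contains, up to Borel bireducibility, the spectrum
of the meager ideal on Cantor space. -/

set_option autoImplicit false

open Pool.Agent.MP_8067b8_lc.H6

namespace Pool.Agent.Results.MP_8067b8_lc.CohenReal

theorem result : ∃ (R AR : Type) (T : Pre R AR), T.IsTRS ∧
    ∀ F : (ℕ → Bool) → (ℕ → Bool) → Prop, Equivalence F →
      MeasureTheory.AnalyticSet {p : (ℕ → Bool) × (ℕ → Bool) | F p.1 p.2} →
      InSpec {S | IsMeagre S} F →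
      ∃ E : R → R → Prop, Equivalence E ∧
        @MeasureTheory.AnalyticSet (R × R) (@instTopologicalSpaceProd R R T.pol T.pol)
          {p | E p.1 p.2} ∧
        @InSpec R T.bor T.idl E ∧ @Red _ _ T.bor _ E F ∧ @Red _ _ _ T.bor F E :=
  cohen_main

end Pool.Agent.Results.MP_8067b8_lc.CohenReal
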